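import Pool.Agent.Helper65.EV.St

/-!
# Project EV, module UG: growth of the truncated logarithm of a level
-/

set_option autoImplicit false

open MeasureTheory ProbabilityTheory Set Filter
open scoped ENNReal Topology

namespace Pool.Agent.Helper33.EV

open Pool.Agent.Helper65.EV Pool.Agent.Helper84.Eve

private lemma w_nonneg {u : ℝ} (h0 : 0 ≤ u) (h1 : u < 1) (n : ℕ) (κ : Finset ℕ) :
    0 ≤ u ^ κ.card * (1 - u) ^ (n - κ.card) :=
  mul_nonneg (pow_nonneg h0 _) (pow_nonneg (by linarith) _)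

private lemma w_sum (u : ℝ) (n : ℕ) :
    ∑ κ ∈ (Finset.range n).powerset, u ^ κ.card * (1 - u) ^ (n - κ.card) = 1 := by
  have h := Finset.sum_pow_mul_eq_add_pow u (1 - u) (Finset.range n)
  rw [Finset.card_range] at h
  rw [h]
  have e : u + (1 - u) = 1 := by ring
  rw [e, one_pow]

private lemma sum_le_const {u : ℝ} (h0 : 0 ≤ u) (h1 : u < 1) (n : ℕ) (F : Finset ℕ → ℝ) (c : ℝ)
    (hF : ∀ κ, F κ ≤ c) :
    ∑ κ ∈ (Finset.range n).powerset, u ^ κ.card * (1 - u) ^ (n - κ.card) * F κ ≤ c := by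
  calc ∑ κ ∈ (Finset.range n).powerset, u ^ κ.card * (1 - u) ^ (n - κ.card) * F κ
      ≤ ∑ κ ∈ (Finset.range n).powerset, u ^ κ.card * (1 - u) ^ (n - κ.card) * c :=
        Finset.sum_le_sum fun κ _ => mul_le_mul_of_nonneg_left (hF κ) (w_nonneg h0 h1 n κ)
    _ = (∑ κ ∈ (Finset.range n).powerset, u ^ κ.card * (1 - u) ^ (n - κ.card)) * c :=
        (Finset.sum_mul _ _ _).symm
    _ = c := by rw [w_sum, one_mul]

/-- UG -/
theorem hUG (h : hU) : hUG := by
  intro u h0 h1 s hs n a
  have hlog1 : 0 ≤ -Real.log (1 - u) := by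
    have := Real.log_nonpos (by linarith : (0 : ℝ) ≤ 1 - u) (by linarith)
    linarith
  have hmin : 0 ≤ min (-Real.log (1 - u)) s := le_min hlog1 hs
  have ha1 : (1 : ℝ) ≤ (a : ℝ) + 1 := by
    have : (0 : ℝ) ≤ a := Nat.cast_nonneg a
    linarith
  have hloga : 0 ≤ Real.log ((a : ℝ) + 1) := Real.log_nonneg ha1
  have hS : ∑ κ ∈ (Finset.range n).powerset, u ^ κ.card * (1 - u) ^ (n - κ.card) * tl s (pos κ a) ≤ s :=
    sum_le_const h0 h1 n _ s fun κ => min_le_right _ _
  rcases le_or_gt s (Real.log ((a : ℝ) + 1)) with hc | hc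
  · have e : tl s a = s := min_eq_right hc
    rw [e]
    linarith
  · have e : tl s a = Real.log ((a : ℝ) + 1) := min_eq_left hc.le
    rw [e]
    have hu' : 0 < 1 - u := by linarith
    set y : ℝ := ((a : ℝ) + 1) / (1 - u) with hy
    have hy0 : 0 < y := div_pos (by linarith) hu'
    have hlogy : Real.log y = Real.log ((a : ℝ) + 1) - Real.log (1 - u) :=
      Real.log_div (by linarith) (by linarith)
    have hL : ∑ κ ∈ (Finset.range n).powerset,
        u ^ κ.card * (1 - u) ^ (n - κ.card) * tl s (pos κ a) ≤ Real.log y := by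
      have hpt : ∀ κ : Finset ℕ, tl s (pos κ a) ≤ (Real.log y - 1) + ((pos κ a : ℝ) + 1) * y⁻¹ := by
        intro κ
        have hx : 0 < ((pos κ a : ℕ) : ℝ) + 1 := by positivity
        have h2 := Real.log_le_sub_one_of_pos (div_pos hx hy0)
        rw [Real.log_div hx.ne' hy0.ne'] at h2
        have h3 : tl s (pos κ a) ≤ Real.log (((pos κ a : ℕ) : ℝ) + 1) := min_le_left _ _
        rw [div_eq_mul_inv] at h2
        linarith
      calc ∑ κ ∈ (Finset.range n).powerset, u ^ κ.card * (1 - u) ^ (n - κ.card) * tl s (pos κ a)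
          ≤ ∑ κ ∈ (Finset.range n).powerset, u ^ κ.card * (1 - u) ^ (n - κ.card) *
            ((Real.log y - 1) + ((pos κ a : ℝ) + 1) * y⁻¹) :=
            Finset.sum_le_sum fun κ _ => mul_le_mul_of_nonneg_left (hpt κ) (w_nonneg h0 h1 n κ)
        _ = (∑ κ ∈ (Finset.range n).powerset, u ^ κ.card * (1 - u) ^ (n - κ.card)) *
            (Real.log y - 1) + (∑ κ ∈ (Finset.range n).powerset,
              u ^ κ.card * (1 - u) ^ (n - κ.card) * ((pos κ a : ℝ) + 1)) * y⁻¹ := by
            rw [Finset.sum_mul, Finset.sum_mul, ← Finset.sum_add_distrib]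
            refine Finset.sum_congr rfl fun κ _ => ?_
            ring
        _ ≤ 1 * (Real.log y - 1) + y * y⁻¹ := by
            rw [w_sum]
            have := mul_le_mul_of_nonneg_right (h u h0 h1 n a) (inv_nonneg.2 hy0.le)
            linarith
        _ = Real.log y := by
            rw [mul_inv_cancel₀ hy0.ne']
            ring
    rw [hlogy] at hL
    rcases le_total (-Real.log (1 - u)) s with hm | hm
    · rw [min_eq_left hm]
      linarith
    · rw [min_eq_right hm]
      linarith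

end Pool.Agent.Helper33.EV
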